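import Pool.Agent.H47.ST.GrowB

/-!
# Few fixed points of mean index zero force quadratic growth of periodic orbits

For a Hamiltonian diffeomorphism `φ` of `T^{2n}` (any `n ≥ 1`): if for some iterate `φ^k` the
contractible fixed points of mean index `0` are finitely many and, counted with local
multiplicity, fewer than `2^{2n}` (for instance if there is none), then `φ` has at least
`A T^2 / log T` primitive periodic orbits of period at most `T`.
-/

set_option autoImplicit false

open Filter Topology Function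
open Pool.Agent.H60.QG (PtE Torus IsHamiltonian IsTimeOne compose P)
open Pool.Agent.H47.QG (Pt action flw oseq SamePt MeanIndex IsDecomp NondegAt)
open Pool.Agent.H47.ST (IsLocNum)

namespace Pool.Agent.Results.MP_39bf4a_gt.FewIndexZero

/-- `C` is a set of representatives, modulo `ℤ^{2n}`, of the solutions of `flw ψ K w = w` with
mean index `0`. If `φ` is the composition of the `N` maps `ψ 0, …, ψ (N - 1)` and `K = k N`, then
`flw ψ N` is a lift of `φ` and these are the contractible fixed points of `φ^k` with mean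
index `0`. -/
structure IsZeroClass {n : ℕ} (S : ℕ → Pt n → ℝ) (ψ : ℕ → Pt n → Pt n) (K : ℕ) [NeZero K]
    (C : Finset (Pt n)) : Prop where
  mem : ∀ w, (flw ψ K w = w ∧ MeanIndex S ψ K w 0) ↔ ∃ c ∈ C, SamePt w c
  inj : ∀ c ∈ C, ∀ c' ∈ C, SamePt c c' → c = c'

/-- `P(T) ≥ A T^2 / log T` for some `A > 0` and all large `T`, and
`liminf log P(T) / log T ≥ 2`. -/
def QuadGrowth {n : ℕ} (φ : Torus n → Torus n) : Prop :=
  (∃ A : ℝ, 0 < A ∧ ∀ᶠ T : ℝ in atTop,
    ENNReal.ofReal (A * T ^ 2 / Real.log T) ≤ (P φ T : ENNReal)) ∧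
  (2 : EReal) ≤ liminf (fun T : ℝ =>
    ENNReal.log (P φ T : ENNReal) / ((Real.log T : ℝ) : EReal)) atTop

/-- If for some `k` the contractible fixed points of `φ^k` of mean index `0` are isolated, finitely
many, and their multiplicities `m` have a sum smaller than `2^{2n}`, then `φ` has quadratic
growth. -/
def FewGrowth {n : ℕ} (φ : Torus n → Torus n) (N : ℕ) (S : ℕ → Pt n → ℝ)
    (ψ : ℕ → Pt n → Pt n) : Prop :=
  ∀ (k : ℕ) [NeZero (k * N)] (C : Finset (Pt n)) (m : Pt n → ℕ),
    IsZeroClass S ψ (k * N) C →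
    (∀ c ∈ C, IsLocNum (action S (k * N)) (oseq ψ (k * N) c) (m c)) →
    ∑ c ∈ C, m c < 2 ^ (2 * n) → QuadGrowth φ

/-- Nondegenerate periodic points have multiplicity `1`. -/
def NondegOne {n : ℕ} (S : ℕ → Pt n → ℝ) (ψ : ℕ → Pt n → Pt n) : Prop :=
  ∀ (K : ℕ) [NeZero K] (w : Pt n), flw ψ K w = w → NondegAt (action S K) (oseq ψ K w) →
    IsLocNum (action S K) (oseq ψ K w) 1

/-- **Quadratic growth.** -/
theorem result {n : ℕ} (hn : 0 < n) {r : ℕ} (hr : 0 < r) (H : ℕ → ℝ → PtE n → ℝ)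
    (f : ℕ → Torus n → Torus n)
    (hH : ∀ i < r, IsHamiltonian (H i)) (hf : ∀ i < r, IsTimeOne (H i) (f i)) :
    -- every composition of Hamiltonian time-one maps is a composition of maps with generating
    -- functions
    (∃ N S ψ, IsDecomp (compose f r) N S ψ) ∧
    -- and for each such decomposition:
    ∀ (N : ℕ) (S : ℕ → Pt n → ℝ) (ψ : ℕ → Pt n → Pt n), IsDecomp (compose f r) N S ψ →
      FewGrowth (compose f r) N S ψ ∧ NondegOne S ψ := by
  refine ⟨?_, fun N S ψ hD => ?_⟩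
  · obtain ⟨N, S, ψ, h⟩ := H47.QG.exists_decomp hr H f hH hf
    exact ⟨N, S, ψ, H47.QG.isDecomp_iff.2 h⟩
  have h := H47.QG.isDecomp_iff.1 hD
  have hsm : ∀ (K : ℕ) [NeZero K], ContDiff ℝ 2 (action S K) := fun K _ =>
    H47.QG.action_smooth S (fun j => (h.gen j).smooth) K
  refine ⟨?_, ?_⟩
  · intro k hk C m hC hm hsum
    refine H47.ST.quad_ST hn h k C (fun w => ?_) (fun c hc c' hc' hcc => ?_) m
      (fun c hc => (H47.ST.isLocNum_iff (hsm _) _ _).1 (hm c hc)) hsum
    · rw [← H47.QG.meanIndex_iff h.gen, hC.mem w]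
      simp only [H47.QG.samePt_iff]
    · exact hC.inj c hc c' hc' ((H47.QG.samePt_iff _ _).2 hcc)
  · intro K hK w hw hnd
    have hos0 : oseq ψ K w 0 = w := by
      have h0 : ((0 : Fin K) : ℕ) = 0 := Fin.val_zero _
      change flw ψ ((0 : Fin K) : ℕ) w = w
      rw [h0]; rfl
    rw [H47.ST.isLocNum_iff (hsm K)]
    refine H47.ST.LocNum_nondeg (action S K) (hsm K) _ ?_ ?_
    · rw [H47.QG.crit_iff S ψ h.gen, hos0]
      exact ⟨hw, rfl⟩
    · exact (H47.QG.nondegAt_iff (hsm K) _).1 hnd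

end Pool.Agent.Results.MP_39bf4a_gt.FewIndexZero
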