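import Mathlib
import Pool.Agent.H81.SC.Neg

set_option autoImplicit false

namespace Pool.Agent.Results.MP_c57dc8_lc.DeepSublinear

open Pool.Agent.H81.SC

/-- There is a sublinear order function `f` such that `SC(f, c)` is deep for every `c`
(for every universal prefix-free machine and every universal left-c.e. continuous semimeasure). -/
theorem result : ∃ f : ℕ → ℕ, IsOrder f ∧
    Filter.Tendsto (fun n : ℕ => (f n : ℝ) / n) Filter.atTop (nhds 0) ∧
    ∀ U : List Bool →. List Bool, IsUniversalMachine U →
      ∀ M : List Bool → ℝ, IsUniversalSemimeasure M →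
        ∀ c : ℕ, IsDeep M (ShiftComplex U (fun n => (f n : ℝ)) c) :=
  ⟨ff, isOrder_ff, ff_tendsto, fun _ hU _ hM c => deep_ff hU hM.1 hM.2.1 c⟩

end Pool.Agent.Results.MP_c57dc8_lc.DeepSublinear
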