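import Mathlib
import Pool.Agent.H81.SC.Neg

set_option autoImplicit false

namespace Pool.Agent.Results.MP_c57dc8_lc.NegligibleSublinear

open Pool.Agent.H81.SC

/-- There is a sublinear order function `f` such that `SC(f, c)` is negligible for every `c`
(for every universal prefix-free machine). -/
theorem result : ∃ f : ℕ → ℕ, IsOrder f ∧
    Filter.Tendsto (fun n : ℕ => (f n : ℝ) / n) Filter.atTop (nhds 0) ∧
    ∀ U : List Bool →. List Bool, IsUniversalMachine U →
      ∀ c : ℕ, IsNegligible (ShiftComplex U (fun n => (f n : ℝ)) c) :=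
  ⟨ff, isOrder_ff, ff_tendsto, fun _ hU c => negligible_ff hU c⟩

end Pool.Agent.Results.MP_c57dc8_lc.NegligibleSublinear
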