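import Pool.Agent.H7LS.Gather

/-!
# Polynomial space against massively parallel machines

For every `k ≥ 1`, every `K` and every `c < 1 / 2` there is a language `L` in space `O(n ^ k)`
such that a parallel machine with `2 ^ m` processors, each with a memory of `s` bits, with
`K n ^ k` bits of advice, is correct on a fraction `1 / 2 ± 2 ^ (-c n)` of the inputs of
length `n` after `R` rounds, when `m + s + R (m + log n) = o(n ^ k)`. The exponent `1 / 2` is
optimal: one fixed machine with `2 n` processors, four bits of memory each, `O(log n)` rounds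
and `n` bits of advice differs from `1 / 2` by at least `2 ^ (-n / 2 - 1)`, for every language.
The bound on the memory is optimal: `2 n` processors with `O(n ^ k)` bits each decide every
language in space `O(n ^ k)` in `O(log n)` rounds, without advice.
-/

namespace Pool.Agent.Results.MP_f404b1_lc.ParallelRounds

open Pool.Agent.H7LS Filter Asymptotics

theorem result (k : ℕ) (hk : 1 ≤ k) :
    (∀ (K : ℕ) (c : ℝ), c < 1 / 2 → ∃ L ∈ SPC k,
      ∀ M : PMach, M.addr ∈ FLIN → M.upd ∈ FLIN → ∀ m s R : ℕ → ℕ,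
        (fun n : ℕ => (m n : ℝ) + s n + R n * (m n + Nat.log 2 n)) =o[atTop]
          (fun n : ℕ => (n : ℝ) ^ k) →
        ∀ᶠ n : ℕ in atTop, ∀ α : List Bool, α.length ≤ K * n ^ k →
          |({x : List Bool | x.length = n ∧
              (M.out n (m n) (s n) (R n) x α = true ↔ x ∈ L)}.ncard : ℝ) / 2 ^ n - 1 / 2| ≤
            2 ^ (-(c * n))) ∧
    (∃ M : PMach, M.addr ∈ FLIN ∧ M.upd ∈ FLIN ∧
      ∀ (L : Set (List Bool)) (n : ℕ), ∃ α : List Bool, α.length = n ∧
        (2 : ℝ) ^ (-((n : ℝ) / 2 + 1)) ≤ |({x : List Bool | x.length = n ∧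
          (M.out n (Nat.log 2 n + 1) 4 (2 * Nat.log 2 n + 3) x α = true ↔
            x ∈ L)}.ncard : ℝ) / 2 ^ n - 1 / 2|) ∧
    (∀ L ∈ SPC k, ∃ M : PMach, M.addr ∈ FLIN ∧ M.upd ∈ FLIN ∧ ∀ (n : ℕ) (x : List Bool),
      x.length = n →
        (M.out n (Nat.log 2 n + 1) (10 * (n ^ k + 1)) (2 * Nat.log 2 n + 3) x [] = true ↔
          x ∈ L)) :=
  ⟨fun K c hc => lower_bound k hk K c hc, ⟨ipM, ipM_addr_mem, ipM_upd_mem, ip_sharp⟩,
    fun _ hL => gather hk hL⟩

end Pool.Agent.Results.MP_f404b1_lc.ParallelRounds
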