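import Pool.Agent.H95.LBD.Lower

/-!
# A polynomial lower bound for the diffusivity of the walk on the infinite percolation cluster

Definitions (file `Pool/Agent/H5/DF/Defs.lean`): `perc d p` is Bernoulli bond percolation on `ℤ ^ d`,
`theta d p` the percolation probability, `tau d p x` the probability that `0` and `x` are connected,
`HasDiffusivity d p D` says that for almost every configuration with `0` in an infinite cluster
`X_n / √n` converges in law to the centred Gaussian vector with covariance matrix `D I_d`.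

If `d ≥ 5` and the two-point function at `p0` is comparable with `|x| ^ (2 - d)` (at `p0 = p_c` this is a
theorem of Hara and of Fitzner and van der Hofstad for `d ≥ 11`), then the diffusivity at `p0 + ε` is at
least `c ε ^ K` with `K = 4 d (2 d - 3) / (d - 4)`, for all small `ε > 0`.
-/

set_option autoImplicit false

namespace Pool.Agent.Results.MP_0d9ad5_pr.PolyLowerBound

open H5DF MeasureTheory

/-- If `a / ‖x‖ ^ (d - 2) ≤ τ_{p0}(x) ≤ A / ‖x‖ ^ (d - 2)` for all `x ≠ 0`, then for all small `ε > 0` the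
percolation probability at `p0 + ε` is positive and the diffusivity is at least `c ε ^ (4d(2d-3)/(d-4))`. -/
theorem result (d : ℕ) (hd : 5 ≤ d) (p0 a A : ℝ) (h0 : 0 < p0) (h1 : p0 < 1) (ha : 0 < a)
    (h : ∀ x : V d, x ≠ 0 → ENNReal.ofReal (a / ‖x‖ ^ (d - 2)) ≤ tau d p0 x ∧
      tau d p0 x ≤ ENNReal.ofReal (A / ‖x‖ ^ (d - 2))) :
    ∃ c δ : ℝ, 0 < c ∧ 0 < δ ∧ ∀ ε : ℝ, 0 < ε → ε < δ → 0 < theta d (p0 + ε) ∧
      ∀ D : NNReal, HasDiffusivity d (p0 + ε) D →
        c * ε ^ ((4 * d * (2 * d - 3) : ℝ) / ((d : ℝ) - 4)) ≤ D := by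
  obtain ⟨c, δ, hc, hδ, hmain⟩ := H95LBD.lower_final hd p0 a A h0 h1 ha h
  refine ⟨c, min δ (1 - p0), hc, lt_min hδ (by linarith), fun ε hε hεδ =>
    ⟨?_, hmain ε hε (hεδ.trans_le (min_le_left _ _))⟩⟩
  have hε1 : ε < 1 - p0 := hεδ.trans_le (min_le_right _ _)
  have hprob : IsProbabilityMeasure (perc d (p0 + ε)) :=
    isProb_perc (p0 + ε) (by linarith) (by linarith)
  by_contra hθ
  have hθ0 : theta d (p0 + ε) = 0 := le_antisymm (not_lt.1 hθ) measureReal_nonneg
  have hnull : perc d (p0 + ε) {ω | (cluster ω 0).Infinite} = 0 := by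
    unfold theta at hθ0
    exact (measureReal_eq_zero_iff).1 hθ0
  have hpos : (0 : ℝ) < c * ε ^ ((4 * d * (2 * d - 3) : ℝ) / ((d : ℝ) - 4)) :=
    mul_pos hc (Real.rpow_pos_of_pos hε _)
  have hD : HasDiffusivity d (p0 + ε) 0 := by
    have h3 : ∀ᵐ ω ∂(perc d (p0 + ε)), ω ∉ {ω : Cfg d | (cluster ω 0).Infinite} :=
      measure_eq_zero_iff_ae_notMem.1 hnull
    filter_upwards [h3] with ω hω hinf
    exact absurd hinf hω
  have h4 := hmain ε hε (hεδ.trans_le (min_le_left _ _)) 0 hD
  rw [NNReal.coe_zero] at h4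
  linarith

end Pool.Agent.Results.MP_0d9ad5_pr.PolyLowerBound
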