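import Pool.Agent.H9.CubeMain

/-!
# Power equations between tree automorphisms and P versus PSPACE

For a language `A` over `{0,1}` let `treeAut A` be the automorphism of the rooted binary tree
`{0,1}^*` that flips the `i`-th letter of a word `w` iff the prefix of `w` of length `i` is in `A`.
Every automorphism of the tree is of this form for exactly one `A`; those with `A ∈ P` form a group.

We determine when the equation `y ^ q = x ^ a` (`q ≥ 1`, `a ≥ 0`) has a solution `y` with portrait in
`P` for every `x` with portrait in `P`: always if `q` divides `a`, never if `q / gcd q a` is even,
and in all the other cases exactly when `P = PSPACE`.  Moreover there is one regular language `U`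
(an automorphism given by one finite transducer) for which the solvability of each equation
`y ^ q = (treeAut U) ^ a` is already equivalent to its solvability for all `x`.
-/

namespace Pool.Agent.Results.MP_f404b1_lc.PowerEquations

open Pool.Agent.PPS Pool.Agent.H9

theorem result : ∃ U : Language Bool, U.IsRegular ∧ ∀ q a : ℕ, 0 < q →
    List.TFAE [
      q ∣ a ∨ Odd (q / Nat.gcd q a) ∧ P = PSPACE,
      ∀ A ∈ P, ∃ B ∈ P, (treeAut B)^[q] = (treeAut A)^[a],
      ∃ B ∈ P, (treeAut B)^[q] = (treeAut U)^[a]] :=
  main

end Pool.Agent.Results.MP_f404b1_lc.PowerEquations
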