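import Pool.Agent.H9.ConjMain

/-!
# Conjugacy of level transitive tree automorphisms and P versus PSPACE

Let `GP` be the group of the automorphisms of the rooted binary tree `{0,1}^*` whose portrait is a
language in `P` (the `i`-th letter of `w` is flipped iff the prefix of `w` of length `i` is in the
language).  All level transitive automorphisms (minimal 2-adic isometries) are conjugate to the
odometer in the full automorphism group.  We prove that the conjugating automorphism can always be
found in `GP` exactly when `P = PSPACE`, and that one finite transducer `u` decides this.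

More generally, for nonzero integers `a ≠ b` with the same 2-adic valuation, the relation
`y x ^ a y⁻¹ = x ^ b` can be solved with `y` in `GP` for all level transitive `x` in `GP`, or for a
certain finite-state `u`, exactly when `P = PSPACE` (`a = 1`, `b = -1`: conjugacy to the inverse;
`a = 1`, `b = 3`: the Baumslag-Solitar relation).
-/

namespace Pool.Agent.Results.MP_f404b1_lc.TreeConjugacy

open Pool.Agent.PPS Pool.Agent.H9

theorem result (a b : ℤ) (ha : a ≠ 0) (hb : b ≠ 0) (hab : a ≠ b)
    (hv : padicValInt 2 a = padicValInt 2 b) :
    ∃ u : Equiv.Perm (List Bool), FiniteState u ∧ LevelTrans u ∧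
      List.TFAE [
        P = PSPACE,
        ∀ x ∈ GP, ∀ x' ∈ GP, LevelTrans x → LevelTrans x' → ∃ y ∈ GP, y * x * y⁻¹ = x',
        ∀ x ∈ GP, LevelTrans x → ∃ y ∈ GP, y * x ^ a * y⁻¹ = x ^ b,
        ∃ y ∈ GP, y * u ^ a * y⁻¹ = u ^ b,
        ∃ y ∈ GP, ∀ w, (y * u * y⁻¹) w = treeAut odo w] :=
  main_conj a b ha hb hab hv

end Pool.Agent.Results.MP_f404b1_lc.TreeConjugacy
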